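import Pool.Agent.H75.HM2.STR

/-! # Crew HM2, part MG2: merging two pairs -/

set_option autoImplicit false

open Polynomial MeasureTheory Filter Topology

namespace HM

theorem h75_bd {ι : Type} [Fintype ι] (x : ι → RR) :
    ∃ W : ℕ, ∀ i, ∀ k ∈ (x i).coeff.support, |k| ≤ (W : ℤ) := by
  classical
  refine ⟨∑ i, (x i).coeff.support.sup Int.natAbs, fun i k hk => ?_⟩
  have h1 : k.natAbs ≤ (x i).coeff.support.sup Int.natAbs := Finset.le_sup (f := Int.natAbs) hk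
  have h2 : (x i).coeff.support.sup Int.natAbs ≤ ∑ i, (x i).coeff.support.sup Int.natAbs :=
    Finset.single_le_sum (f := fun i => (x i).coeff.support.sup Int.natAbs)
      (fun i _ => Nat.zero_le _) (Finset.mem_univ i)
  rw [Int.abs_eq_natAbs]
  exact_mod_cast h1.trans h2

/-- `w(T^t)` comes from a polynomial -/
theorem h75_expand (w : ℂ[X]) (t : ℕ) : ∃ v : ℂ[X], tl v = dl (t : ℤ) (tl w) := by
  refine ⟨Polynomial.expand ℂ t w, ?_⟩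
  induction w using Polynomial.induction_on' with
  | add p q hp hq => rw [map_add, map_add, map_add, map_add, hp, hq]
  | monomial n a =>
    rw [Polynomial.expand_monomial, h75_tl_monomial, h75_tl_monomial]
    unfold dl
    rw [h75_sb_single]
    congr 1
    simp only [AddMonoidHom.coe_mulLeft]
    push_cast
    ring

/-- two disjoint supports -/
theorem h75_disj (hNRM : S_NRM) (r : ℝ) (hr : 1 ≤ r) (x y : RR)
    (h : Disjoint x.coeff.support y.coeff.support) :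
    Nn r (x + y) ^ r = Nn r x ^ r + Nn r y ^ r := by
  have h1 := hNRM.disj r (Finset.univ : Finset (Fin 2)) (fun i => if i = 0 then x else y) hr (by
    intro i _ j _ hij
    fin_cases i <;> fin_cases j
    · exact absurd rfl hij
    · simpa using h
    · simpa using h.symm
    · exact absurd rfl hij)
  simpa [Fin.sum_univ_two] using h1

/-- exponents near the origin against exponents far away -/
theorem h75_far (W : ℕ) (t : ℤ) (ht : 2 * (W : ℤ) < t) (x y z : RR)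
    (hx : ∀ k ∈ x.coeff.support, |k| ≤ (W : ℤ)) (hz : ∀ k ∈ z.coeff.support, |k| ≤ (W : ℤ))
    (hy : y.coeff 0 = 0)
    (hk : ∀ k ∈ (x * dl t y).coeff.support, ∃ i ∈ x.coeff.support, ∃ j ∈ y.coeff.support,
      k = i + t * j) : Disjoint z.coeff.support (x * dl t y).coeff.support := by
  rw [Finset.disjoint_left]
  intro k hkz hkx
  obtain ⟨i, hi, j, hj, rfl⟩ := hk k hkx
  have h1 := abs_le.1 (hx i hi)
  have h2 := abs_le.1 (hz _ hkz)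
  have hj0 : j ≠ 0 := by
    rintro rfl
    exact (Finsupp.mem_support_iff.1 hj) hy
  rcases lt_or_gt_of_ne hj0 with h3 | h3
  · have h4 : t * j ≤ -t := by nlinarith
    linarith [h1.2, h2.1]
  · have h4 : t ≤ t * j := by nlinarith
    linarith [h1.1, h2.2]

theorem MG2_proved (hWPW : S_WPW) (hDIL : S_DIL) (hNRM : S_NRM) : S_MG2 := by
  classical
  intro p hp m g₁ g₂ f₁ f₂ ε hε
  have hp1 : 1 ≤ p := by linarith
  set q : ℝ := p / (p - 1) with hq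
  have hq1 : 1 ≤ q := by
    rw [hq, le_div_iff₀ (by linarith)]; linarith
  -- the constant
  set B : ℝ := ∑ i : Fin m, (Nn p (tl g₁ * f₁ i) + Nn p (tl g₂ * f₂ i) + Nn p (tl g₁ * f₂ i) +
    Nn p (tl g₂ * f₁ i)) with hB
  have hterm0 : ∀ i : Fin m, 0 ≤ Nn p (tl g₁ * f₁ i) + Nn p (tl g₂ * f₂ i) + Nn p (tl g₁ * f₂ i) +
      Nn p (tl g₂ * f₁ i) := fun i => by
    have h1 := hNRM.nonneg p (tl g₁ * f₁ i)
    have h2 := hNRM.nonneg p (tl g₂ * f₂ i)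
    have h3 := hNRM.nonneg p (tl g₁ * f₂ i)
    have h4 := hNRM.nonneg p (tl g₂ * f₁ i)
    linarith
  have hB0 : 0 ≤ B := Finset.sum_nonneg fun i _ => hterm0 i
  have hBi : ∀ i : Fin m, Nn p (tl g₁ * f₁ i) + Nn p (tl g₂ * f₂ i) + Nn p (tl g₁ * f₂ i) +
      Nn p (tl g₂ * f₁ i) ≤ B := fun i =>
    Finset.single_le_sum (f := fun i => Nn p (tl g₁ * f₁ i) + Nn p (tl g₂ * f₂ i) +
      Nn p (tl g₁ * f₂ i) + Nn p (tl g₂ * f₁ i)) (fun i _ => hterm0 i) (Finset.mem_univ i)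
  set κ : ℝ := ε / (B + 1) with hκ
  have hκ0 : 0 < κ := by positivity
  have hκB : κ * B ≤ ε := by
    rw [hκ, div_mul_eq_mul_div, div_le_iff₀ (by linarith)]
    nlinarith
  obtain ⟨w, w', M, s, hP⟩ := hWPW p hp κ 1 hκ0
  have hwp : Nn p (tl w) ≤ κ := by
    have := hP.pow1 1 le_rfl le_rfl
    rwa [pow_one] at this
  have hw0 : (tl w).coeff 0 = 0 := by
    obtain ⟨w₀, rfl⟩ : ∃ w₀ : ℂ[X], w = X * w₀ := by
      have : (X : ℂ[X]) ∣ w := Polynomial.X_dvd_iff.2 hP.w0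
      exact this
    have h1 : tl (X * w₀) = TT 1 * tl w₀ := by
      rw [map_mul]
      congr 1
      have : (X : ℂ[X]) = Polynomial.monomial 1 1 := rfl
      rw [this, h75_tl_monomial]
      rfl
    have h2 : ∀ v : ℂ[X], ∀ k : ℤ, k < 0 → (tl v).coeff k = 0 := by
      intro v
      induction v using Polynomial.induction_on' with
      | add p q hp hq =>
        intro k hk
        rw [map_add, AddMonoidAlgebra.coeff_add, Finsupp.add_apply, hp k hk, hq k hk, add_zero]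
      | monomial n a =>
        intro k hk
        rw [h75_tl_monomial, AddMonoidAlgebra.coeff_single, Finsupp.single_apply, if_neg]
        omega
    rw [h1]
    unfold TT
    have h3 := AddMonoidAlgebra.coeff_single_mul_apply (tl w₀) (1 : ℂ) (1 : ℤ) (0 : ℤ)
    rw [h3, one_mul]
    exact h2 w₀ _ (by norm_num)
  have hw0' : w'.coeff 0 = 0 := hP.w0' 0 le_rfl
  -- first scale
  let X₁ : Fin m × Fin 4 → RR := fun a => match a.2 with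
    | 0 => f₁ a.1
    | 1 => f₂ a.1
    | 2 => tl g₁ * f₁ a.1
    | 3 => tl g₁ * f₂ a.1
  obtain ⟨Wa, hWa⟩ := h75_bd X₁
  let X₂ : Fin m → RR := fun a => tl g₂ * f₁ a
  obtain ⟨Wb, hWb⟩ := h75_bd X₂
  obtain ⟨Wc, hWc⟩ := h75_bd (fun _ : Fin 1 => tl g₁)
  obtain ⟨W₁, hW₁⟩ : ∃ W₁ : ℕ, W₁ = Wa + Wb + Wc := ⟨_, rfl⟩
  obtain ⟨t₁, ht₁⟩ : ∃ t₁ : ℕ, t₁ = 2 * W₁ + 1 := ⟨_, rfl⟩
  have ht₁' : 2 * (W₁ : ℤ) < (t₁ : ℤ) := by rw [ht₁]; push_cast; omega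
  have b1 : ∀ i, ∀ k ∈ (f₁ i).coeff.support, |k| ≤ (W₁ : ℤ) := fun i k hk => by
    have := hWa (i, 0) k hk
    rw [hW₁]; push_cast; omega
  have b3 : ∀ i, ∀ k ∈ (tl g₁ * f₁ i).coeff.support, |k| ≤ (W₁ : ℤ) := fun i k hk => by
    have := hWa (i, 2) k hk
    rw [hW₁]; push_cast; omega
  have b4 : ∀ i, ∀ k ∈ (tl g₁ * f₂ i).coeff.support, |k| ≤ (W₁ : ℤ) := fun i k hk => by
    have := hWa (i, 3) k hk
    rw [hW₁]; push_cast; omega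
  have b5 : ∀ i, ∀ k ∈ (tl g₂ * f₁ i).coeff.support, |k| ≤ (W₁ : ℤ) := fun i k hk => by
    have := hWb i k hk
    rw [hW₁]; push_cast; omega
  have b6 : ∀ k ∈ (tl g₁).coeff.support, |k| ≤ (W₁ : ℤ) := fun k hk => by
    have := hWc 0 k hk
    rw [hW₁]; push_cast; omega
  obtain ⟨v₁, hv₁⟩ := h75_expand w t₁
  -- second scale
  let Y₁ : Fin m × Fin 5 → RR := fun a => match a.2 with
    | 0 => f₁ a.1 * dl t₁ w'
    | 1 => f₂ a.1
    | 2 => tl g₂ * f₂ a.1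
    | 3 => tl g₁ * f₂ a.1 * dl t₁ (tl w)
    | 4 => tl g₂ * f₁ a.1 * dl t₁ w'
  obtain ⟨Va, hVa⟩ := h75_bd Y₁
  obtain ⟨Vb, hVb⟩ := h75_bd (fun _ : Fin 1 => tl g₂)
  obtain ⟨Vc, hVc⟩ := h75_bd (fun _ : Fin 1 => tl g₁ * dl t₁ (tl w))
  obtain ⟨W₂, hW₂⟩ : ∃ W₂ : ℕ, W₂ = Va + Vb + Vc := ⟨_, rfl⟩
  obtain ⟨t₂, ht₂⟩ : ∃ t₂ : ℕ, t₂ = 2 * W₂ + 1 := ⟨_, rfl⟩
  have ht₂' : 2 * (W₂ : ℤ) < (t₂ : ℤ) := by rw [ht₂]; push_cast; omega
  have c0 : ∀ i, ∀ k ∈ (f₁ i * dl t₁ w').coeff.support, |k| ≤ (W₂ : ℤ) := fun i k hk => by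
    have := hVa (i, 0) k hk
    rw [hW₂]; push_cast; omega
  have c1 : ∀ i, ∀ k ∈ (f₂ i).coeff.support, |k| ≤ (W₂ : ℤ) := fun i k hk => by
    have := hVa (i, 1) k hk
    rw [hW₂]; push_cast; omega
  have c2 : ∀ i, ∀ k ∈ (tl g₂ * f₂ i).coeff.support, |k| ≤ (W₂ : ℤ) := fun i k hk => by
    have := hVa (i, 2) k hk
    rw [hW₂]; push_cast; omega
  have c3 : ∀ i, ∀ k ∈ (tl g₁ * f₂ i * dl t₁ (tl w)).coeff.support, |k| ≤ (W₂ : ℤ) := fun i k hk => by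
    have := hVa (i, 3) k hk
    rw [hW₂]; push_cast; omega
  have c4 : ∀ i, ∀ k ∈ (tl g₂ * f₁ i * dl t₁ w').coeff.support, |k| ≤ (W₂ : ℤ) := fun i k hk => by
    have := hVa (i, 4) k hk
    rw [hW₂]; push_cast; omega
  have c5 : ∀ k ∈ (tl g₂).coeff.support, |k| ≤ (W₂ : ℤ) := fun k hk => by
    have := hVb 0 k hk
    rw [hW₂]; push_cast; omega
  have c6 : ∀ k ∈ (tl g₁ * dl t₁ (tl w)).coeff.support, |k| ≤ (W₂ : ℤ) := fun k hk => by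
    have := hVc 0 k hk
    rw [hW₂]; push_cast; omega
  obtain ⟨v₂, hv₂⟩ := h75_expand w t₂
  have hnw' : 0 ≤ Nn p w' := hNRM.nonneg _ _
  have hnw : 0 ≤ Nn p (tl w) := hNRM.nonneg _ _
  have hnwq : 0 ≤ Nn q (tl w) := hNRM.nonneg _ _
  refine ⟨g₁ * v₁ + g₂ * v₂, fun i => f₁ i * dl t₁ w' + f₂ i * dl t₂ w', ?_, fun i => ⟨?_, ?_⟩⟩
  · rw [map_add, map_mul, map_mul, hv₁, hv₂]
    obtain ⟨d1, _, _⟩ := hDIL q (tl g₁) (tl w) W₁ t₁ hq1 ht₁' b6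
    obtain ⟨d2, _, d3⟩ := hDIL q (tl g₂) (tl w) W₂ t₂ hq1 ht₂' c5
    rw [h75_disj hNRM q hq1 _ _ (h75_far W₂ t₂ ht₂' (tl g₂) (tl w) (tl g₁ * dl t₁ (tl w)) c5 c6 hw0 d3),
      d1, d2]
    apply add_le_add
    · apply Real.rpow_le_rpow (mul_nonneg (hNRM.nonneg _ _) hnwq) _ (by linarith)
      exact mul_le_of_le_one_right (hNRM.nonneg _ _) hP.nq
    · apply Real.rpow_le_rpow (mul_nonneg (hNRM.nonneg _ _) hnwq) _ (by linarith)
      exact mul_le_of_le_one_right (hNRM.nonneg _ _) hP.nq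
  · obtain ⟨d1, _, _⟩ := hDIL p (f₁ i) w' W₁ t₁ hp1 ht₁' (b1 i)
    obtain ⟨d2, _, d3⟩ := hDIL p (f₂ i) w' W₂ t₂ hp1 ht₂' (c1 i)
    rw [h75_disj hNRM p hp1 _ _ (h75_far W₂ t₂ ht₂' (f₂ i) w' (f₁ i * dl t₁ w') (c1 i) (c0 i) hw0' d3),
      d1, d2]
    apply add_le_add
    · apply Real.rpow_le_rpow (mul_nonneg (hNRM.nonneg _ _) hnw') _ (by linarith)
      exact mul_le_of_le_one_right (hNRM.nonneg _ _) hP.np
    · apply Real.rpow_le_rpow (mul_nonneg (hNRM.nonneg _ _) hnw') _ (by linarith)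
      exact mul_le_of_le_one_right (hNRM.nonneg _ _) hP.np
  · have e0 : tl (g₁ * v₁ + g₂ * v₂) * (f₁ i * dl t₁ w' + f₂ i * dl t₂ w') - tl g₁ * f₁ i -
        tl g₂ * f₂ i =
        (tl g₁ * f₁ i) * dl t₁ (tl w * w' - 1) + (tl g₂ * f₂ i) * dl t₂ (tl w * w' - 1) +
        (tl g₁ * f₂ i * dl t₁ (tl w)) * dl t₂ w' + (tl g₂ * f₁ i * dl t₁ w') * dl t₂ (tl w) := by
      rw [map_add, map_mul, map_mul, hv₁, hv₂]
      simp only [map_sub, map_mul, map_one]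
      ring
    rw [e0]
    obtain ⟨d1, _, _⟩ := hDIL p (tl g₁ * f₁ i) (tl w * w' - 1) W₁ t₁ hp1 ht₁' (b3 i)
    obtain ⟨d2, _, _⟩ := hDIL p (tl g₂ * f₂ i) (tl w * w' - 1) W₂ t₂ hp1 ht₂' (c2 i)
    obtain ⟨d3, _, _⟩ := hDIL p (tl g₁ * f₂ i * dl t₁ (tl w)) w' W₂ t₂ hp1 ht₂' (c3 i)
    obtain ⟨d4, _, _⟩ := hDIL p (tl g₂ * f₁ i * dl t₁ w') (tl w) W₂ t₂ hp1 ht₂' (c4 i)
    obtain ⟨d5, _, _⟩ := hDIL p (tl g₁ * f₂ i) (tl w) W₁ t₁ hp1 ht₁' (b4 i)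
    obtain ⟨d6, _, _⟩ := hDIL p (tl g₂ * f₁ i) w' W₁ t₁ hp1 ht₁' (b5 i)
    have n1 := hNRM.nonneg p (tl g₁ * f₁ i)
    have n2 := hNRM.nonneg p (tl g₂ * f₂ i)
    have n3 := hNRM.nonneg p (tl g₁ * f₂ i)
    have n4 := hNRM.nonneg p (tl g₂ * f₁ i)
    have a1 : Nn p ((tl g₁ * f₁ i) * dl t₁ (tl w * w' - 1)) ≤ κ * Nn p (tl g₁ * f₁ i) := by
      rw [d1, mul_comm]; exact mul_le_mul_of_nonneg_right hP.inv n1
    have a2 : Nn p ((tl g₂ * f₂ i) * dl t₂ (tl w * w' - 1)) ≤ κ * Nn p (tl g₂ * f₂ i) := by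
      rw [d2, mul_comm]; exact mul_le_mul_of_nonneg_right hP.inv n2
    have a3 : Nn p ((tl g₁ * f₂ i * dl t₁ (tl w)) * dl t₂ w') ≤ κ * Nn p (tl g₁ * f₂ i) := by
      rw [d3, d5]
      calc Nn p (tl g₁ * f₂ i) * Nn p (tl w) * Nn p w' ≤ Nn p (tl g₁ * f₂ i) * Nn p (tl w) * 1 :=
            mul_le_mul_of_nonneg_left hP.np (mul_nonneg n3 hnw)
        _ = Nn p (tl w) * Nn p (tl g₁ * f₂ i) := by ring
        _ ≤ κ * Nn p (tl g₁ * f₂ i) := mul_le_mul_of_nonneg_right hwp n3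
    have a4 : Nn p ((tl g₂ * f₁ i * dl t₁ w') * dl t₂ (tl w)) ≤ κ * Nn p (tl g₂ * f₁ i) := by
      rw [d4, d6]
      calc Nn p (tl g₂ * f₁ i) * Nn p w' * Nn p (tl w) = Nn p w' * (Nn p (tl w) * Nn p (tl g₂ * f₁ i)) := by ring
        _ ≤ 1 * (κ * Nn p (tl g₂ * f₁ i)) := by
            apply mul_le_mul hP.np (mul_le_mul_of_nonneg_right hwp n4) (mul_nonneg hnw n4) (by norm_num)
        _ = κ * Nn p (tl g₂ * f₁ i) := by ring
    have s1 := hNRM.add p ((tl g₁ * f₁ i) * dl t₁ (tl w * w' - 1) + (tl g₂ * f₂ i) * dl t₂ (tl w * w' - 1) +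
        (tl g₁ * f₂ i * dl t₁ (tl w)) * dl t₂ w') ((tl g₂ * f₁ i * dl t₁ w') * dl t₂ (tl w)) hp1
    have s2 := hNRM.add p ((tl g₁ * f₁ i) * dl t₁ (tl w * w' - 1) + (tl g₂ * f₂ i) * dl t₂ (tl w * w' - 1))
        ((tl g₁ * f₂ i * dl t₁ (tl w)) * dl t₂ w') hp1
    have s3 := hNRM.add p ((tl g₁ * f₁ i) * dl t₁ (tl w * w' - 1)) ((tl g₂ * f₂ i) * dl t₂ (tl w * w' - 1)) hp1
    have s4 : κ * (Nn p (tl g₁ * f₁ i) + Nn p (tl g₂ * f₂ i) + Nn p (tl g₁ * f₂ i) +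
      Nn p (tl g₂ * f₁ i)) ≤ κ * B := mul_le_mul_of_nonneg_left (hBi i) hκ0.le
    linarith

end HM
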