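import Pool.Agent.H67.HM.Stm2

/-! # Crew HM2, part STR: structure theorem in one variable -/

set_option autoImplicit false

open Polynomial MeasureTheory Filter Topology

namespace HM

theorem h75_tl_monomial (n : ℕ) (a : ℂ) :
    tl (Polynomial.monomial n a) = AddMonoidAlgebra.single (n : ℤ) a := by
  unfold tl
  rw [Polynomial.toLaurent_apply]
  simp

theorem h75_sb_single {G H : Type} [AddCommGroup G] [AddCommGroup H] (h : G →+ H) (g : G) (c : ℂ) :
    sb h (AddMonoidAlgebra.single g c) = AddMonoidAlgebra.single (h g) c := by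
  unfold sb
  simp

/-- a multivariate Laurent polynomial with nonnegative exponents after substitution comes from a
polynomial -/
theorem h75_poly {G : Type} [AddCommGroup G] (h : G →+ ℤ) (x : AddMonoidAlgebra ℂ G) (T : ℕ)
    (hx : ∀ α ∈ x.coeff.support, (T : ℤ) ≤ h α) :
    ∃ b : ℂ[X], tl b = sb h x ∧ ∀ k < T, b.coeff k = 0 := by
  refine ⟨∑ α ∈ x.coeff.support, Polynomial.monomial (h α).toNat (x.coeff α), ?_, ?_⟩
  · rw [map_sum]
    have h1 : x = ∑ α ∈ x.coeff.support, AddMonoidAlgebra.single α (x.coeff α) := by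
      apply AddMonoidAlgebra.ext
      rw [AddMonoidAlgebra.coeff_sum]
      simp only [AddMonoidAlgebra.coeff_single]
      exact (Finsupp.sum_single x.coeff).symm
    conv_rhs => rw [h1]
    rw [map_sum]
    refine Finset.sum_congr rfl fun α hα => ?_
    rw [h75_tl_monomial, h75_sb_single]
    congr 1
    exact Int.toNat_of_nonneg (le_trans (by positivity) (hx α hα))
  · intro k hk
    rw [Polynomial.finset_sum_coeff]
    refine Finset.sum_eq_zero fun α hα => ?_
    rw [Polynomial.coeff_monomial, if_neg]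
    have := hx α hα
    omega

theorem STR_proved (hMOD : S_MOD) (hSUBS : S_SUBS) (hNSB : S_NSB) (hMUL : S_MUL) (hNRM : S_NRM)
    (hSTA : S_STA) : S_STR := by
  classical
  intro p hp j₀ η U ρ W T₀ hj₀ hη hU hρ
  have hU0 : 0 < U := by linarith
  have hp1 : 1 ≤ p := by linarith
  have hq1 : 1 ≤ p / (p - 1) := by
    rw [le_div_iff₀ (by linarith)]; linarith
  set ρ' : ℝ := min (1 / (2 * U)) (ρ / (U ^ (j₀ + 1) * 2 ^ (j₀ + 2))) with hρ'
  have hρ'0 : 0 < ρ' := lt_min (by positivity) (by positivity)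
  have hρ'1 : ρ' ≤ 1 / (2 * U) := min_le_left _ _
  have hρ'2 : U ^ (j₀ + 1) * 2 ^ (j₀ + 2) * ρ' ≤ ρ := by
    have h1 : ρ' ≤ ρ / (U ^ (j₀ + 1) * 2 ^ (j₀ + 2)) := min_le_right _ _
    rw [le_div_iff₀ (by positivity)] at h1
    linarith
  obtain ⟨k, N, b₁, D₁, s, hs0, hD0, hbsupp, hbq, hDp, hDs, hact, hSu, hsρ, hM⟩ :=
    hMOD p hp j₀ η ρ' hj₀ hη hρ'0
  -- the finite set
  let F : Finset (Fin k → Fin N → ℤ) := b₁.coeff.support ∪
    ((Finset.range (j₀ + 1)).biUnion fun i => (D₁ i).coeff.support) ∪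
    ((Finset.range (j₀ + 1)).biUnion fun i => (Finset.range (j₀ + 1)).biUnion fun j =>
      (b₁ ^ j * D₁ i - D₁ (i - j)).coeff.support)
  obtain ⟨h, hsep, hlow⟩ := hSUBS k N F (max W T₀)
  have hFb : b₁.coeff.support ⊆ F := fun x hx => by
    simp only [F, Finset.mem_union]; exact Or.inl (Or.inl hx)
  have hFD : ∀ i ≤ j₀, (D₁ i).coeff.support ⊆ F := fun i hi x hx => by
    simp only [F, Finset.mem_union, Finset.mem_biUnion, Finset.mem_range]
    exact Or.inl (Or.inr ⟨i, by omega, hx⟩)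
  have hFB : ∀ i ≤ j₀, ∀ j ≤ i, (b₁ ^ j * D₁ i - D₁ (i - j)).coeff.support ⊆ F := fun i hi j hj x hx => by
    simp only [F, Finset.mem_union, Finset.mem_biUnion, Finset.mem_range]
    exact Or.inr ⟨i, by omega, j, by omega, hx⟩
  have hN : ∀ y : AddMonoidAlgebra ℂ (Fin k → Fin N → ℤ), y.coeff.support ⊆ F →
      ∀ (r : ℝ), 1 ≤ r → Nn r (sb h y) = Nn r y ∧
        ∀ x : RR, (∀ k ∈ x.coeff.support, |k| ≤ (max W T₀ : ℕ)) →
          Nn r (x * sb h y) = Nn r x * Nn r y := by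
    intro y hy
    exact (hNSB h y (max W T₀) (fun α hα β hβ hαβ => hsep α (hy hα) β (hy hβ) hαβ)).2
  obtain ⟨b, hb, hblow⟩ := h75_poly h b₁ (max W T₀) (fun α hα => by
    obtain ⟨h1, h2⟩ := hbsupp α hα
    exact hlow α h1 h2)
  -- the bound on the circle
  have hsup : ∀ z : ℂ, ‖z‖ = 1 → ‖b.eval z‖ ≤ s := by
    apply hSTA.evl b s
    rw [hb]
    intro χ hχ1 hχ2
    have h1 := hSu (χ.comp (sb h)) (by
      intro g c
      simp only [RingHom.comp_apply, h75_sb_single]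
      exact hχ1 _ _) (by
      intro g
      simp only [RingHom.comp_apply, h75_sb_single]
      exact hχ2 _)
    exact h1
  have hUs : U * s ≤ 1 / 2 := by
    have h1 : s ≤ 1 / (2 * U) := hsρ.trans hρ'1
    calc U * s ≤ U * (1 / (2 * U)) := mul_le_mul_of_nonneg_left h1 hU0.le
      _ = 1 / 2 := by field_simp
  refine ⟨b, fun i => sb h (D₁ i), ?_⟩
  refine ⟨?_, ?_, ?_, ?_, ?_, ?_, ?_⟩
  · simp only [hD0, map_one]
  · intro k hk
    exact hblow k (lt_of_lt_of_le hk (le_max_right _ _))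
  · intro x hx
    rw [hb, ((hN b₁ hFb) _ hq1).2 x (fun k hk => (hx k hk).trans (by exact_mod_cast le_max_left _ _))]
    exact mul_le_of_le_one_right (hNRM.nonneg _ _) hbq
  · intro x hx
    rw [((hN (D₁ 1) (hFD 1 hj₀)) _ hp1).2 x (fun k hk => (hx k hk).trans (by exact_mod_cast le_max_left _ _))]
    exact mul_le_of_le_one_right (hNRM.nonneg _ _) hDp
  · intro i h2 hi
    rw [((hN (D₁ i) (hFD i hi)) _ hp1).1]
    exact hDs i h2 hi
  · intro i hi J
    have hterm : ∀ j : ℕ, U ^ j * Nn p (tl b ^ j * sb h (D₁ i) - if j ≤ i then sb h (D₁ (i - j)) else 0) ≤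
        U ^ (j₀ + 1) * 2 ^ (j₀ + 1) * ρ' * (1 / 2) ^ j := by
      intro j
      by_cases hj : j ≤ i
      · rw [if_pos hj]
        have e1 : tl b ^ j * sb h (D₁ i) - sb h (D₁ (i - j)) = sb h (b₁ ^ j * D₁ i - D₁ (i - j)) := by
          rw [hb, map_sub, map_mul, map_pow]
        rw [e1, ((hN _ (hFB i hi j hj)) _ hp1).1]
        have e2 := hact i hi j hj
        have e3 : U ^ j ≤ U ^ (j₀ + 1) := pow_le_pow_right₀ hU (by omega)
        have e4 : (1 : ℝ) ≤ 2 ^ (j₀ + 1) * (1 / 2) ^ j := by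
          have e5 : (2 : ℝ) ^ j ≤ 2 ^ (j₀ + 1) := pow_le_pow_right₀ (by norm_num) (by omega)
          rw [one_div, inv_pow, ← div_eq_mul_inv, one_le_div (by positivity)]
          exact e5
        calc U ^ j * Nn p (b₁ ^ j * D₁ i - D₁ (i - j)) ≤ U ^ (j₀ + 1) * ρ' :=
              mul_le_mul e3 e2 (hNRM.nonneg _ _) (by positivity)
          _ = U ^ (j₀ + 1) * ρ' * 1 := by ring
          _ ≤ U ^ (j₀ + 1) * ρ' * (2 ^ (j₀ + 1) * (1 / 2) ^ j) :=
              mul_le_mul_of_nonneg_left e4 (by positivity)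
          _ = _ := by ring
      · rw [if_neg hj, sub_zero]
        rw [not_le] at hj
        have e1 : Nn p (tl b ^ j * sb h (D₁ i)) ≤ Nn 2 (tl b ^ j * sb h (D₁ i)) :=
          hNRM.mono 2 p _ (by norm_num) hp.le
        have e2 : ∀ n : ℕ, Nn 2 (tl b ^ n * sb h (D₁ i)) ≤ s ^ n * Nn 2 (D₁ i) := by
          intro n
          induction n with
          | zero =>
            rw [pow_zero, pow_zero, one_mul, one_mul, ((hN (D₁ i) (hFD i hi)) _ (by norm_num)).1]
          | succ n ih =>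
            rw [pow_succ', mul_assoc]
            refine (hMUL b s hs0 hsup _).trans ?_
            rw [pow_succ', mul_assoc]
            exact mul_le_mul_of_nonneg_left ih hs0
        have e3 : U ^ j * (s ^ j * Nn 2 (D₁ i)) ≤ U ^ (j₀ + 1) * 2 ^ (j₀ + 1) * ρ' * (1 / 2) ^ j := by
          obtain ⟨l, rfl⟩ : ∃ l, j = i + 1 + l := ⟨j - (i + 1), by omega⟩
          have e4 : U ^ (i + 1 + l) * (s ^ (i + 1 + l) * Nn 2 (D₁ i)) =
              (U * s) ^ l * U ^ (i + 1) * (Nn 2 (D₁ i) * s ^ (i + 1)) := by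
            rw [mul_pow]; ring
          rw [e4]
          have e5 : (U * s) ^ l ≤ (1 / 2) ^ l := pow_le_pow_left₀ (by positivity) hUs l
          have e6 : U ^ (i + 1) ≤ U ^ (j₀ + 1) := pow_le_pow_right₀ hU (by omega)
          have e7 := hM i hi
          have e8 : (1 / 2 : ℝ) ^ l = 2 ^ (i + 1) * (1 / 2) ^ (i + 1 + l) := by
            rw [pow_add (1 / 2 : ℝ) (i + 1) l, ← mul_assoc, ← mul_pow]; norm_num
          have e9 : (2 : ℝ) ^ (i + 1) ≤ 2 ^ (j₀ + 1) := pow_le_pow_right₀ (by norm_num) (by omega)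
          calc (U * s) ^ l * U ^ (i + 1) * (Nn 2 (D₁ i) * s ^ (i + 1))
              ≤ (1 / 2) ^ l * U ^ (j₀ + 1) * ρ' := by
                apply mul_le_mul (mul_le_mul e5 e6 (by positivity) (by positivity)) e7
                · exact mul_nonneg (hNRM.nonneg _ _) (by positivity)
                · positivity
            _ = 2 ^ (i + 1) * ((1 / 2) ^ (i + 1 + l) * U ^ (j₀ + 1) * ρ') := by rw [e8]; ring
            _ ≤ 2 ^ (j₀ + 1) * ((1 / 2) ^ (i + 1 + l) * U ^ (j₀ + 1) * ρ') :=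
                mul_le_mul_of_nonneg_right e9 (by positivity)
            _ = _ := by ring
        calc U ^ j * Nn p (tl b ^ j * sb h (D₁ i)) ≤ U ^ j * (s ^ j * Nn 2 (D₁ i)) :=
              mul_le_mul_of_nonneg_left (e1.trans (e2 j)) (by positivity)
          _ ≤ _ := e3
    calc ∑ j ∈ Finset.range J, U ^ j *
          Nn p (tl b ^ j * sb h (D₁ i) - if j ≤ i then sb h (D₁ (i - j)) else 0)
        ≤ ∑ j ∈ Finset.range J, U ^ (j₀ + 1) * 2 ^ (j₀ + 1) * ρ' * (1 / 2) ^ j :=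
          Finset.sum_le_sum fun j _ => hterm j
      _ = U ^ (j₀ + 1) * 2 ^ (j₀ + 1) * ρ' * ∑ j ∈ Finset.range J, (1 / 2 : ℝ) ^ j := by
          rw [Finset.mul_sum]
      _ ≤ U ^ (j₀ + 1) * 2 ^ (j₀ + 1) * ρ' * 2 :=
          mul_le_mul_of_nonneg_left (sum_geometric_two_le J) (by positivity)
      _ = U ^ (j₀ + 1) * 2 ^ (j₀ + 2) * ρ' := by ring
      _ ≤ ρ := hρ'2
  · intro z hz
    calc U * ‖b.eval z‖ ≤ U * s := mul_le_mul_of_nonneg_left (hsup z hz) hU0.le
      _ ≤ 1 := by linarith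

end HM
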